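import Mathlib
import Pool.Agent.K3h4.B6.Main

/-!
# `∑ C(2k,k) T_{2k}(b,c) / 16^k` modulo `p^2` for `(b,c) = (2,3)` and `(4,-3)`

For `p = 1` modulo `3`, `p = x^2 + 3y^2`, `x = 1` modulo `3`, the sums over `0 ≤ k ≤ (p-1)/2` are both
congruent to `(-1/p) (2x - p/(2x))` modulo `p^2`; for `p = 2` modulo `3` they are divisible by `p`.
The second sum, extended to `0 ≤ k ≤ p-1` as printed, satisfies the congruences modulo `p` but not
modulo `p^2` (it fails for `p = 7`).

Sketch of the proof.  Modulo `p^2` the sum is `(-1)^n A_p`, where `A_m` is the coefficient of `t^(m-1)`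
in the polynomial `G_m(t)` with `G_0 = 0`, `G_1 = 1`, `G_{m+1} = q G_m - t^2 G_{m-1}`,
`q = t^2 + bt + c`.  On the curve `y^2 = 1 + x^3` there are a function `t = x v(x)` and a function `V`
whose divisor is supported on points of order six with `V + x^2/V = q(t)/v`, and such that the
differential `dt/(V - x^2/V)` is a multiple of `v dx/y`; by Lagrange inversion
`A_m = (e/2) [x^(m-1)] V^m/y` exactly.  Since `x V'/V = 1 - R(x)/y` with a rational function `R`, the
coefficients of `V^p` modulo `p^2` are known, which gives `A_p` modulo `p^2` in terms of the binomial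
coefficients `C(-1/2,k)`; the remaining sum `∑ 1/(k (-2)^k C(2k,k))` over `k ≤ (p-1)/3` is evaluated by
a symmetry of the coefficients of `(1 - (x(x-1)/2)^K)/(1+x)`, `p = 3K + 1`.
-/

set_option autoImplicit false

namespace Pool.Agent.Results.MP_b67006_nt.TwoSums

open Finset

/-- the generalized central trinomial coefficient `T_n(b,c)` -/
def T (n : ℕ) (b c : ℤ) : ℤ :=
  ∑ j ∈ range (n / 2 + 1), (n.choose (2 * j) : ℤ) * ((2 * j).choose j : ℤ) * b ^ (n - 2 * j) * c ^ j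

/-- `∑_{k=0}^{N} C(2k,k) T_{2k}(b,c) / 16^k` -/
def S (b c : ℤ) (N : ℕ) : ℚ :=
  ∑ k ∈ range (N + 1), ((2 * k).choose k : ℚ) / 16 ^ k * (T (2 * k) b c : ℚ)

/-- `x ≡ y (mod p^m)` for rational numbers `x`, `y` with denominators prime to `p`:
`(x - y) / p^m` has denominator prime to `p`. -/
def Congr (p m : ℕ) (x y : ℚ) : Prop :=
  ¬ p ∣ x.den ∧ ¬ p ∣ y.den ∧ ¬ p ∣ ((x - y) / (p : ℚ) ^ m).den

open Pool.Agent.R439.PL Pool.Agent.K3h4.B6

theorem congr_of_EQ {p m : ℕ} [Fact p.Prime] {x y : ℚ} (h : EQ p m x y) : Congr p m x y := by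
  refine ⟨?_, ?_, den_of_I h.2.2⟩
  · have := den_of_I (p := p) (k := 0) (I_zero_iff.2 h.1)
    rwa [pow_zero, div_one] at this
  · have := den_of_I (p := p) (k := 0) (I_zero_iff.2 h.2.1)
    rwa [pow_zero, div_one] at this

theorem S_eq (b c : ℤ) (N : ℕ) : S b c N = SS b c (N + 1) := by
  rw [S, SS]
  refine sum_congr rfl fun k _ => ?_
  rw [show T (2 * k) b c = Pool.Agent.K3h4.B6.T b c (2 * k) from rfl]
  ring

theorem value7 : S 4 (-3) 6 = -781639815 / 1048576 := by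
  norm_num [S, T, sum_range_succ, Nat.choose]

/-- Full answer to Q1, with the range of the second sum corrected to `0 ≤ k ≤ (p-1)/2`. -/
theorem result :
    (∀ p : ℕ, p.Prime → 3 < p →
      (p % 3 = 1 → (∃ x y : ℤ, (p : ℤ) = x ^ 2 + 3 * y ^ 2 ∧ x % 3 = 1) ∧
        ∀ x y : ℤ, (p : ℤ) = x ^ 2 + 3 * y ^ 2 → x % 3 = 1 →
          Congr p 2 (S 2 3 ((p - 1) / 2)) ((-1) ^ ((p - 1) / 2) * (2 * x - p / (2 * x))) ∧
          Congr p 2 (S 4 (-3) ((p - 1) / 2)) ((-1) ^ ((p - 1) / 2) * (2 * x - p / (2 * x))) ∧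
          Congr p 1 (S 4 (-3) (p - 1)) ((-1) ^ ((p - 1) / 2) * (2 * x - p / (2 * x)))) ∧
      (p % 3 = 2 → Congr p 1 (S 2 3 ((p - 1) / 2)) 0 ∧ Congr p 1 (S 4 (-3) ((p - 1) / 2)) 0 ∧
        Congr p 1 (S 4 (-3) (p - 1)) 0)) ∧
    ¬ Congr 7 2 (S 4 (-3) 6) ((-1) ^ 3 * (2 * (-2) - 7 / (2 * (-2)))) := by
  refine ⟨fun p hp h3 => ?_, ?_⟩
  · have : Fact p.Prime := ⟨hp⟩
    have h2 : p % 2 = 1 := by
      rcases hp.eq_two_or_odd with h | h
      · omega
      · exact h
    obtain ⟨n, hn⟩ : ∃ n, p = 2 * n + 1 := ⟨p / 2, by omega⟩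
    have e1 : (p - 1) / 2 = n := by omega
    have e2 : p - 1 + 1 = p := by omega
    simp only [S_eq, e1, e2]
    constructor
    · intro h1
      constructor
      · obtain ⟨j, hj⟩ : ∃ j, p = 6 * j + 1 := ⟨p / 6, by omega⟩
        obtain ⟨x, y, h4, h5, -⟩ := Pool.Agent.K3h4.H48.rep (p := p) hj
        exact ⟨x, y, h4, h5⟩
      · intro x y h4 h5
        have a1 := SS_one (p := p) h3 hn h1 norm1 h4 h5
        have a2 := SS_one (p := p) h3 hn h1 norm2 h4 h5
        exact ⟨congr_of_EQ a1, congr_of_EQ a2,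
          congr_of_EQ ((SS_tail (p := p) h3 hn 4 (-3)).trans (a2.mono (by norm_num)))⟩
    · intro h1
      have a1 := SS_two (p := p) h3 hn h1 norm1
      have a2 := SS_two (p := p) h3 hn h1 norm2
      exact ⟨congr_of_EQ a1, congr_of_EQ a2, congr_of_EQ ((SS_tail (p := p) h3 hn 4 (-3)).trans a2)⟩
  · rintro ⟨-, -, h⟩
    apply h
    rw [value7]
    norm_num

end Pool.Agent.Results.MP_b67006_nt.TwoSums
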